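import Pool.Agent.H10.Rec3

namespace Pool.Agent.Results.MP_646863_pr.NotAR
open MeasureTheory Pool.Agent.H10.Rec

/-- A finitely generated Liouville group that is not algebraically recurrent. -/
theorem result : ∃ (G : Type) (_ : Group G) (_ : MeasurableSpace G)
    (_ : DiscreteMeasurableSpace G) (S : Finset G) (μ : PMF G),
    1 ∉ S ∧ (∀ s ∈ S, s⁻¹ ∈ S) ∧ Subgroup.closure (S : Set G) = ⊤ ∧
    (∀ (f : G → ℝ) (C : ℝ), (∀ g, |f g| ≤ C) → (∀ g, f g = (∑ s ∈ S, f (g * s)) / S.card) →
      ∀ g g', f g = f g') ∧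
    (∀ g, μ g⁻¹ = μ g) ∧ Subgroup.closure μ.support = ⊤ ∧
    ¬ ∀ᵐ ω ∂(Measure.infinitePi fun _ : ℕ => μ.toMeasure), Subsemigroup.closure
      (Set.range fun k : ℕ => ((List.range (1 + k)).map ω).prod) = ⊤ := by
  classical
  let φ : FreeGroup Bool →* A := FreeGroup.lift fun b => if b then ⟨0, 1⟩ else ⟨1, 0⟩
  let a : φ.range := φ.rangeRestrict (.of true)
  let t : φ.range := φ.rangeRestrict (.of false)
  have ha : a.1 = ⟨0, 1⟩ := by simp [a, φ]
  have ht : t.1 = ⟨1, 0⟩ := by simp [t, φ]
  have : Countable (FreeGroup Bool) := Quot.mk_surjective.countable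
  have : Countable φ.range := φ.rangeRestrict_surjective.countable
  let _ : MeasurableSpace φ.range := ⊤
  have d : DiscreteMeasurableSpace φ.range := ⟨fun _ => trivial⟩
  have hg : Subgroup.closure {a, t} = ⊤ := by
    rw [← Set.image_pair, ← MonoidHom.map_closure, ← Subgroup.map_top_of_surjective _
      φ.rangeRestrict_surjective, ← FreeGroup.closure_range_of]
    congr 2; ext; simp [eq_comm, or_comm]
  obtain ⟨μ, h⟩ := wr φ.range.subtype a t ha ht hg
  let π : φ.range →* Multiplicative ℤ := MonoidHom.mk' (fun g => .ofAdd g.1.k) fun _ _ => rfl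
  have n : ∀ x y : φ.range, x.1.k + 2 * x.1.f 0 ≠ y.1.k + 2 * y.1.f 0 → x ≠ y := fun x y h e =>
    h (by rw [e])
  have n1 := n a a⁻¹ (by simp [ha]; norm_num)
  have n2 := n a t (by simp [ha, ht])
  have n3 := n a t⁻¹ (by simp [ha, ht]; norm_num)
  have n4 := n a⁻¹ t (by simp [ha, ht]; norm_num)
  have n5 := n a⁻¹ t⁻¹ (by simp [ha, ht])
  have n6 := n t t⁻¹ (by simp [ht]; norm_num)
  refine ⟨_, inferInstance, _, d, {a, a⁻¹, t, t⁻¹}, μ, ?_, by simp, ?_, fun f C hC hf => ?_, h⟩
  · simp [n 1 a (by simp [ha]), n 1 t (by simp [ht]), (n 1 a (by simp [ha])).symm,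
      (n 1 t (by simp [ht])).symm]
  · rw [eq_top_iff, ← hg]
    exact Subgroup.closure_mono (by simp [Set.insert_subset_iff])
  · have := liou π a t (by simp [π, ha]) (by simp [π, ht]) (fun g hg => by
      have : g.1.k = 0 := hg
      ext <;> simp [ha, this, add_comm]) hg f C hC fun g => by
        rw [hf g, Finset.sum_insert (by simp [*]), Finset.sum_insert (by simp [*]),
          Finset.sum_pair n6, Finset.card_insert_of_notMem (by simp [*]),
          Finset.card_insert_of_notMem (by simp [*]), Finset.card_pair n6]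
        push_cast; ring
    exact fun g g' => (this g).trans (this g').symm

end Pool.Agent.Results.MP_646863_pr.NotAR
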